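import Mathlib
import Pool.Agent.N534.HC.Coh

/-!
# The odd cohomology of products of random curves and Jacobians: the limit law up to the edge

The setting is that of `MP_2b9663_nt.OddCohomologyNearTheEdge`: `K` is any number field, `X_c = ∏_{j ∈ R} Y_j`, where `Y_j` is the hyperelliptic
curve `C_{j,c} : y² = F_j(c; x)` over `K` or its Jacobian, the `F_j` are weighted homogeneous families (a scaling of the integer parameters `c` twists
all the curves), and `i` is odd.

The theorem: for finitely many points `s_k` with `Re s_k ≥ s₀ = i/2 + 1` (`s₀` itself and the whole edge line are allowed) and any points `σ_k(H) → s_k` with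
`(Re σ_k(H) - s₀) log H → ∞`, the joint distribution of the numbers `L(X_c, σ_k(H))`, `c` in the box `|c_l| ≤ H`, converges to the joint
distribution of the values `exp (Z_k)` of the random Euler product at the points `s_k`: the residue classes of `c` modulo the primes are independent
and uniform, and `Z_k` is the limit in the mean of the logarithms of the partial products over `p ≤ z`. In particular there is no mass at `0`: the values
of the i-th L-functions close to `s₀` are bounded away from `0` (and from infinity) outside arbitrarily small proportions of the members, and the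
proportion of the members with `|L(X_c, σ(H))| ≤ η` tends to the probability of `|exp Z| ≤ η` for all but countably many `η`, which tends to zero with `η`.
Nothing about continuation is assumed or proved.
-/

set_option autoImplicit false

open NumberField IsDedekindDomain Polynomial MeasureTheory Filter Topology

namespace Pool.Agent.Results.MP_2b9663_nt.OddCohomologyLimitLaw

section
variable {K : Type} [Field K] [NumberField K]

/-- Number of affine points of `y² = g(x)` with coordinates in the extension of degree `m` of the finite field `k`, i.e. the field of the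
elements of the algebraic closure of `k` which are fixed by the `m`-th power of the Frobenius of `k`. -/
noncomputable def affineCount (k : Type) [Field k] (g : k[X]) (m : ℕ) : ℕ :=
  Nat.card {P : AlgebraicClosure k × AlgebraicClosure k //
    P.1 ^ (Nat.card k ^ m) = P.1 ∧ P.2 ^ (Nat.card k ^ m) = P.2 ∧ P.2 ^ 2 = aeval P.1 g}

/-- Number of points at infinity of the smooth projective curve `y² = g(x)` over the extension of degree `m` of `k`: one if the degree of `g`
is odd, and otherwise the number of square roots of the leading coefficient. -/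
noncomputable def infinityCount (k : Type) [Field k] (g : k[X]) (m : ℕ) : ℕ :=
  if Odd g.natDegree then 1 else
    Nat.card {y : AlgebraicClosure k // y ^ (Nat.card k ^ m) = y ∧
      y ^ 2 = algebraMap k (AlgebraicClosure k) g.leadingCoeff}

/-- Trace of the `m`-th power of the Frobenius at `v` on `H¹` of the curve `y² = f(x)`: `q^m + 1` minus the number of its points over the
field with `q^m` elements, `q = N v`. -/
noncomputable def trace (f : (𝓞 K)[X]) (v : HeightOneSpectrum (𝓞 K)) (m : ℕ) : ℤ :=
  haveI : v.asIdeal.IsMaximal := v.isMaximal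
  letI : Field (𝓞 K ⧸ v.asIdeal) := Ideal.Quotient.field v.asIdeal
  ((Ideal.absNorm v.asIdeal : ℕ) : ℤ) ^ m + 1 -
    (affineCount (𝓞 K ⧸ v.asIdeal) (f.map (Ideal.Quotient.mk v.asIdeal)) m +
      infinityCount (𝓞 K ⧸ v.asIdeal) (f.map (Ideal.Quotient.mk v.asIdeal)) m)

/-- Good reduction: `v` does not divide `2` and the reduction of `f` is separable, of degree `d`. -/
def Good (f : (𝓞 K)[X]) (d : ℕ) (v : HeightOneSpectrum (𝓞 K)) : Prop :=
  (2 : 𝓞 K) ∉ v.asIdeal ∧ (f.map (Ideal.Quotient.mk v.asIdeal)).natDegree = d ∧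
    (f.map (Ideal.Quotient.mk v.asIdeal)).Separable

/-- The elementary symmetric functions `e_n` in terms of the power sums `P_l` (Newton's identities `n e_n = ∑ (-1)^{l-1} e_{n-l} P_l`): if
`P_l = tr(A^l)`, then `wedge P n` is the trace of `∧^n A`. -/
noncomputable def wedge (P : ℕ → ℝ) : ℕ → ℝ
  | 0 => 1
  | n + 1 => (∑ l : Fin (n + 1), (-1) ^ (l : ℕ) * wedge P (n - l) * P (l + 1)) / (n + 1)
decreasing_by omega

/-- The trace polynomial `∑ tr(A | H^n(Y)) t^n` of a curve (`jac = false`) or of its Jacobian (`jac = true`); `q` is the norm, and `P l` the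
trace of the `l`-th power of the Frobenius `A` on `H¹`. -/
noncomputable def cohom (jac : Bool) (q : ℝ) (P : ℕ → ℝ) : PowerSeries ℝ :=
  if jac then PowerSeries.mk (wedge P) else 1 + PowerSeries.C (P 1) * PowerSeries.X + PowerSeries.C q * PowerSeries.X ^ 2

/-- The trace of the `k`-th power of the Frobenius at `v` on `H^i(∏_j Y_j)`, where `Y_j` is the curve `y² = f_j(x)` or its Jacobian. -/
noncomputable def localTrace {R : Type} [Fintype R] (jac : R → Bool) (i : ℕ) (f : R → (𝓞 K)[X]) (v : HeightOneSpectrum (𝓞 K))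
    (k : ℕ) : ℝ :=
  PowerSeries.coeff i (∏ j, cohom (jac j) (((Ideal.absNorm v.asIdeal : ℕ) : ℝ) ^ k)
    (fun l => ((trace (f j) v (k * l) : ℤ) : ℝ)))

open Classical in
/-- The sum over the places `v` above `p`, of residue degree `f_v` dividing `k`, of `f_v` times the local trace of the power `k / f_v`. -/
noncomputable def frobTrace (t : HeightOneSpectrum (𝓞 K) → ℕ → ℝ) (p k : ℕ) : ℝ :=
  ∑ᶠ v : {v : HeightOneSpectrum (𝓞 K) // (p : 𝓞 K) ∈ v.asIdeal},
    if Nat.log p (Ideal.absNorm v.1.asIdeal) ∣ k then
      (Nat.log p (Ideal.absNorm v.1.asIdeal) : ℝ) * t v.1 (k / Nat.log p (Ideal.absNorm v.1.asIdeal))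
    else 0

open Classical in
/-- The logarithm `∑ (frobTrace t p k) p^{-ks} / k` of the product of the Euler factors at the places above `p`, for local traces `t`; it is
omitted if one of these places is not good. -/
noncomputable def logFactor (t : HeightOneSpectrum (𝓞 K) → ℕ → ℝ) (G : HeightOneSpectrum (𝓞 K) → Prop)
    (s : ℂ) (p : ℕ) : ℂ :=
  if ∃ v : HeightOneSpectrum (𝓞 K), (p : 𝓞 K) ∈ v.asIdeal ∧ ¬ G v then 0 else
    ∑' k : ℕ, (frobTrace t p (k + 1) : ℂ) / ((k : ℂ) + 1) * (p : ℂ) ^ (-(((k : ℂ) + 1) * s))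

/-- The L-function: the product of the Euler factors. -/
noncomputable def LSeries (t : HeightOneSpectrum (𝓞 K) → ℕ → ℝ) (G : HeightOneSpectrum (𝓞 K) → Prop) (s : ℂ) : ℂ :=
  ∏' p : Nat.Primes, Complex.exp (logFactor t G s (p : ℕ))

variable {J : Type} [Fintype J] [DecidableEq J]

/-- The member `F(c; x)` of the family. -/
noncomputable def member (F : (MvPolynomial J (𝓞 K))[X]) (c : J → ℤ) : (𝓞 K)[X] :=
  F.map (MvPolynomial.eval (fun j => ((c j : ℤ) : 𝓞 K)))

/-- `L(H^i(X_c), s)`. -/
noncomputable def LSeriesc {R : Type} [Fintype R] (jac : R → Bool) (i : ℕ) (F : R → (MvPolynomial J (𝓞 K))[X]) (c : J → ℤ) (s : ℂ) : ℂ :=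
  LSeries (localTrace jac i (fun j => member (F j) c)) (fun v => ∀ j, Good (member (F j) c) (F j).natDegree v) s

/-- The integer vectors with coordinates of absolute value at most `H`. -/
noncomputable def box (ι : Type) [Fintype ι] [DecidableEq ι] (H : ℕ) : Finset (ι → ℤ) :=
  Fintype.piFinset fun _ => Finset.Icc (-(H : ℤ)) H

/-- Vectors of residue classes, one for each prime. -/
abbrev Residues (ι : Type) : Type := ∀ p : Nat.Primes, ι → ZMod (p : ℕ)

/-- The residue classes are independent and uniform. -/
noncomputable def uniform (ι : Type) [Fintype ι] [DecidableEq ι] : MeasureTheory.Measure (Residues ι) :=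
  MeasureTheory.Measure.infinitePi fun p => (PMF.uniformOfFintype (ι → ZMod (p : ℕ))).toMeasure

/-- An integer vector in the residue class modulo `p`. -/
def lift {ι : Type} (x : Residues ι) (p : Nat.Primes) : ι → ℤ := fun i => ((x p i).val : ℤ)

/-- The prime numbers up to `z`. -/
def primesUpTo (z : ℕ) : Finset Nat.Primes := (Finset.range (z + 1)).subtype Nat.Prime

/-- The logarithm of the random Euler product over the primes `p ≤ z`: the Euler factor at `p` is that of the member given by the
residue classes modulo `p`. -/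
noncomputable def randomLog {ι : Type} (t : (ι → ℤ) → HeightOneSpectrum (𝓞 K) → ℕ → ℝ)
    (G : (ι → ℤ) → HeightOneSpectrum (𝓞 K) → Prop) (z : ℕ) (s : ℂ) (x : Residues ι) : ℂ :=
  ∑ p ∈ primesUpTo z, logFactor (t (lift x p)) (G (lift x p)) s (p : ℕ)

/-- **The limit law of the L-functions of the odd cohomology of products of random curves and Jacobians up to the line `Re s = i/2 + 1`.** -/
theorem result {R : Type} [Fintype R] [DecidableEq R] [Nonempty R] (jac : R → Bool) (F : R → (MvPolynomial J (𝓞 K))[X])
    (hF : ∀ j, 1 ≤ (F j).natDegree)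
    (hc : ∀ j, ∃ c : J → ℤ, (member (F j) c).natDegree = (F j).natDegree ∧
      ((member (F j) c).map (algebraMap (𝓞 K) K)).Separable)
    (wt : J → ℕ) (a e : R → ℕ) (he : ∀ j, Odd (e j))
    (hs : ∀ (j : R) (G : ℤ) (c : J → ℤ), (member (F j) (fun l => G ^ wt l * c l)).comp (C ((G : 𝓞 K) ^ a j) * X) =
      C ((G : 𝓞 K) ^ e j) * member (F j) c)
    (i : ℕ) (hi : Odd i) {κ : Type} [Fintype κ] (s : κ → ℂ) (hsk : ∀ k, 1 + (i : ℝ) / 2 ≤ (s k).re) :
    ∃ Z : κ → Residues J → ℂ, (∀ k, Measurable (Z k)) ∧ (∀ k, Integrable (Z k) (uniform J)) ∧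
      (∀ k, Tendsto (fun z : ℕ => ∫ x, ‖randomLog (fun c => localTrace jac i (fun j => member (F j) c))
        (fun c v => ∀ j, Good (member (F j) c) (F j).natDegree v) z (s k) x - Z k x‖ ∂(uniform J)) atTop (𝓝 0)) ∧
      ∀ σ : ℕ → κ → ℂ, (∀ k, Tendsto (fun H => σ H k) atTop (𝓝 (s k))) →
        (∀ k, Tendsto (fun H : ℕ => ((σ H k).re - (1 + (i : ℝ) / 2)) * Real.log H) atTop atTop) →
        (∀ g : (κ → ℂ) → ℝ, Continuous g → (∃ C : ℝ, ∀ y, |g y| ≤ C) →
          Tendsto (fun H : ℕ => (∑ c ∈ box J H, g (fun k => LSeriesc jac i F c (σ H k))) / (box J H).card)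
            atTop (𝓝 (∫ x, g (fun k => Complex.exp (Z k x)) ∂(uniform J)))) ∧
        (∀ E : Set (κ → ℂ), MeasurableSet E →
          uniform J {x | (fun k => Complex.exp (Z k x)) ∈ frontier E} = 0 →
          Tendsto (fun H : ℕ => (open Classical in ((box J H).filter
            (fun c => (fun k => LSeriesc jac i F c (σ H k)) ∈ E)).card : ℝ) / (box J H).card) atTop
            (𝓝 ((uniform J).real {x | (fun k => Complex.exp (Z k x)) ∈ E}))) := by
  have hwt : Pool.Agent.N534.HC.HasWt (Pool.Agent.N534.HC.Coh.Hd jac i) i :=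
    (Pool.Agent.N534.HC.Inst.hasWt_iff _ _).2 (Pool.Agent.N534.HC.Coh.Hd_hom jac i)
  have hAdm : ∀ j, Pool.Agent.N534.HC.Adm (F j) := fun j => ⟨hF j, hc j⟩
  have hodd := Pool.Agent.N534.HC.Inst.oddMon_all (F := F) (wt := wt) (a := a) (e := e) hs he hwt hi
  obtain ⟨D, hD⟩ := Pool.Agent.N534.HC.powH hwt hAdm hodd
  have hcmp := Pool.Agent.N534.HC.Inst.cmpH i (Pool.Agent.N534.HC.Coh.Hd jac i) F
  have hwedge : ∀ (P : ℕ → ℝ) (n : ℕ), wedge P n = Pool.Agent.N534.HC.Coh.wedge P n := by
    intro P n
    induction n using Nat.strong_induction_on with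
    | _ n ih =>
      match n with
      | 0 => rw [wedge, Pool.Agent.N534.HC.Coh.wedge]
      | n + 1 =>
        rw [wedge, Pool.Agent.N534.HC.Coh.wedge]
        congr 1
        refine Finset.sum_congr rfl fun l _ => ?_
        rw [ih (n - l) (by omega)]
  have hcoh : ∀ (b : Bool) (q : ℝ) (P : ℕ → ℝ), cohom b q P = Pool.Agent.N534.HC.Coh.cohom b q P := by
    intro b q P
    unfold cohom Pool.Agent.N534.HC.Coh.cohom
    have : wedge P = Pool.Agent.N534.HC.Coh.wedge P := funext (hwedge P)
    rw [this]
  have ht : (fun c : J → ℤ => localTrace jac i (fun j => member (F j) c)) =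
      Pool.Agent.N534.HC.Inst.tH (Pool.Agent.N534.HC.Coh.Hd jac i) F := by
    funext c v k
    unfold localTrace Pool.Agent.N534.HC.Inst.tH Pool.Agent.N534.HC.chv
    rw [Pool.Agent.N534.HC.Coh.Hd_eval jac i _ (fun j l => ((trace (member (F j) c) v (k * l) : ℤ) : ℝ))
      (fun j l => congrArg (Int.cast : ℤ → ℝ)
        (Pool.Agent.N534.HC.Inst.trace_eq (member (F j) c) v (k * (l + 1))).symm)]
    simp only [hcoh]
    rfl
  have hg : (fun (c : J → ℤ) v => ∀ j, Good (member (F j) c) (F j).natDegree v) =
      Pool.Agent.N534.HC.Inst.gH F := rfl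
  have hL : LSeriesc jac i F = fun (c : J → ℤ) (s : ℂ) => Pool.Agent.N534.HC.St.LSeries
      (Pool.Agent.N534.HC.Inst.tH (Pool.Agent.N534.HC.Coh.Hd jac i) F c) (Pool.Agent.N534.HC.Inst.gH F c) s := by
    funext c s
    unfold LSeriesc
    have h1 : localTrace jac i (fun j => member (F j) c) =
        Pool.Agent.N534.HC.Inst.tH (Pool.Agent.N534.HC.Coh.Hd jac i) F c := congrFun ht c
    rw [h1]
    rfl
  have h1 := Pool.Agent.N534.HC.St.lawC hcmp hD s hsk
  rw [hL, ht, hg]
  exact h1

end

end Pool.Agent.Results.MP_2b9663_nt.OddCohomologyLimitLaw
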