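import Mathlib
import Pool.Agent.N534.HC.Coh

/-!
# The odd cohomology of products of random curves and Jacobians, near the edge

`K` is any number field (a smooth projective variety over `K` is a smooth projective variety over `ℚ` with the same L-functions). The
varieties are `X_c = ∏_{j ∈ R} Y_j`, where `Y_j` is the hyperelliptic curve `C_{j,c} : y² = F_j(c; x)` over `K`, or its Jacobian; the same
curve may occur several times, so that powers `C^n`, abelian varieties `∏ Jac(C_j)^{n_j}` and their products are included. By Künneth the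
trace of the `k`-th power of the Frobenius at `v` on `H^i(X_c)` is the coefficient of `t^i` in the product of the trace polynomials:
`1 + tr(A^k) t + N v^k t²` for a curve, `∑_b tr(∧^b A^k) t^b` for a Jacobian, `A` the Frobenius on `H¹`; the traces on the exterior powers
are given by Newton's identities in the traces of the powers, and these by point counts.

The family: `F_j(c; x)` is a polynomial in `x` whose coefficients are polynomials over `𝓞 K` in finitely many integer parameters; a scaling
`c_l → G^{wt_l} c_l` of the parameters twists all the curves: `F_j(G c; G^{a_j} x) = G^{e_j} F_j(c; x)` with `e_j` odd; and each family has a member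
which is nonsingular and of full degree. Examples: all polynomials of degree `d`, all linear systems of polynomials (`wt = 1`, `a = 0`, `e = 1`), all
curves `y² = x³ + A x + B` (weights `2`, `3`, `a = 1`, `e = 3`), with parameters in `ℤ` or in `𝓞 K`, written in an integral basis. The parameters of the
different `C_j` may be the same or independent.

The theorem: let `i` be odd, and `L(X_c, s)` the `i`-th L-function, as an Euler product over the `v` above the primes `p` at which all `v ∣ p` are good.
Then the mean over the members `c` with `|c_l| ≤ H` of the square of the supremum of `|log L(X_c, s)|` over the rectangle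
`s₀ + 1/log H ≤ Re s ≤ s₀ + 1`, `|Im s| ≤ T`, `s₀ = i/2 + 1`, is at most `C (1 + T)`, with `C` independent of `H` and `T`. So outside a
proportion `δ` of the members no zero on the whole edge line `Re s = s₀` is visible at the distance `1/log H` (a zero makes `-log |L|` as large as `log (1/ε)` at
the distance `ε`), in accordance with Q1, and also no pole, as expected for odd `i`. Nothing about continuation is assumed or proved.
-/

set_option autoImplicit false

open NumberField IsDedekindDomain Polynomial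

namespace Pool.Agent.Results.MP_2b9663_nt.OddCohomologyNearTheEdge

section
variable {K : Type} [Field K] [NumberField K]

/-- Number of affine points of `y² = g(x)` with coordinates in the extension of degree `m` of the finite field `k`, i.e. the field of the
elements of the algebraic closure of `k` which are fixed by the `m`-th power of the Frobenius of `k`. -/
noncomputable def affineCount (k : Type) [Field k] (g : k[X]) (m : ℕ) : ℕ :=
  Nat.card {P : AlgebraicClosure k × AlgebraicClosure k //
    P.1 ^ (Nat.card k ^ m) = P.1 ∧ P.2 ^ (Nat.card k ^ m) = P.2 ∧ P.2 ^ 2 = aeval P.1 g}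

/-- Number of points at infinity of the smooth projective curve `y² = g(x)` over the extension of degree `m` of `k`: one if the degree of `g`
is odd, and otherwise the number of square roots of the leading coefficient. -/
noncomputable def infinityCount (k : Type) [Field k] (g : k[X]) (m : ℕ) : ℕ :=
  if Odd g.natDegree then 1 else
    Nat.card {y : AlgebraicClosure k // y ^ (Nat.card k ^ m) = y ∧
      y ^ 2 = algebraMap k (AlgebraicClosure k) g.leadingCoeff}

/-- Trace of the `m`-th power of the Frobenius at `v` on `H¹` of the curve `y² = f(x)`: `q^m + 1` minus the number of its points over the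
field with `q^m` elements, `q = N v`. -/
noncomputable def trace (f : (𝓞 K)[X]) (v : HeightOneSpectrum (𝓞 K)) (m : ℕ) : ℤ :=
  haveI : v.asIdeal.IsMaximal := v.isMaximal
  letI : Field (𝓞 K ⧸ v.asIdeal) := Ideal.Quotient.field v.asIdeal
  ((Ideal.absNorm v.asIdeal : ℕ) : ℤ) ^ m + 1 -
    (affineCount (𝓞 K ⧸ v.asIdeal) (f.map (Ideal.Quotient.mk v.asIdeal)) m +
      infinityCount (𝓞 K ⧸ v.asIdeal) (f.map (Ideal.Quotient.mk v.asIdeal)) m)

/-- Good reduction: `v` does not divide `2` and the reduction of `f` is separable, of degree `d`. -/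
def Good (f : (𝓞 K)[X]) (d : ℕ) (v : HeightOneSpectrum (𝓞 K)) : Prop :=
  (2 : 𝓞 K) ∉ v.asIdeal ∧ (f.map (Ideal.Quotient.mk v.asIdeal)).natDegree = d ∧
    (f.map (Ideal.Quotient.mk v.asIdeal)).Separable

/-- The elementary symmetric functions `e_n` in terms of the power sums `P_l` (Newton's identities `n e_n = ∑ (-1)^{l-1} e_{n-l} P_l`): if
`P_l = tr(A^l)`, then `wedge P n` is the trace of `∧^n A`. -/
noncomputable def wedge (P : ℕ → ℝ) : ℕ → ℝ
  | 0 => 1
  | n + 1 => (∑ l : Fin (n + 1), (-1) ^ (l : ℕ) * wedge P (n - l) * P (l + 1)) / (n + 1)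
decreasing_by omega

/-- The trace polynomial `∑ tr(A | H^n(Y)) t^n` of a curve (`jac = false`) or of its Jacobian (`jac = true`); `q` is the norm, and `P l` the
trace of the `l`-th power of the Frobenius `A` on `H¹`. -/
noncomputable def cohom (jac : Bool) (q : ℝ) (P : ℕ → ℝ) : PowerSeries ℝ :=
  if jac then PowerSeries.mk (wedge P) else 1 + PowerSeries.C (P 1) * PowerSeries.X + PowerSeries.C q * PowerSeries.X ^ 2

/-- The trace of the `k`-th power of the Frobenius at `v` on `H^i(∏_j Y_j)`, where `Y_j` is the curve `y² = f_j(x)` or its Jacobian. -/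
noncomputable def localTrace {R : Type} [Fintype R] (jac : R → Bool) (i : ℕ) (f : R → (𝓞 K)[X]) (v : HeightOneSpectrum (𝓞 K))
    (k : ℕ) : ℝ :=
  PowerSeries.coeff i (∏ j, cohom (jac j) (((Ideal.absNorm v.asIdeal : ℕ) : ℝ) ^ k)
    (fun l => ((trace (f j) v (k * l) : ℤ) : ℝ)))

open Classical in
/-- The sum over the places `v` above `p`, of residue degree `f_v` dividing `k`, of `f_v` times the local trace of the power `k / f_v`. -/
noncomputable def frobTrace (t : HeightOneSpectrum (𝓞 K) → ℕ → ℝ) (p k : ℕ) : ℝ :=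
  ∑ᶠ v : {v : HeightOneSpectrum (𝓞 K) // (p : 𝓞 K) ∈ v.asIdeal},
    if Nat.log p (Ideal.absNorm v.1.asIdeal) ∣ k then
      (Nat.log p (Ideal.absNorm v.1.asIdeal) : ℝ) * t v.1 (k / Nat.log p (Ideal.absNorm v.1.asIdeal))
    else 0

open Classical in
/-- The logarithm `∑ (frobTrace t p k) p^{-ks} / k` of the product of the Euler factors at the places above `p`, for local traces `t`; it is
omitted if one of these places is not good. -/
noncomputable def logFactor (t : HeightOneSpectrum (𝓞 K) → ℕ → ℝ) (G : HeightOneSpectrum (𝓞 K) → Prop)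
    (s : ℂ) (p : ℕ) : ℂ :=
  if ∃ v : HeightOneSpectrum (𝓞 K), (p : 𝓞 K) ∈ v.asIdeal ∧ ¬ G v then 0 else
    ∑' k : ℕ, (frobTrace t p (k + 1) : ℂ) / ((k : ℂ) + 1) * (p : ℂ) ^ (-(((k : ℂ) + 1) * s))

/-- The logarithm of the L-function. -/
noncomputable def logL (t : HeightOneSpectrum (𝓞 K) → ℕ → ℝ) (G : HeightOneSpectrum (𝓞 K) → Prop) (s : ℂ) : ℂ :=
  ∑' p : Nat.Primes, logFactor t G s (p : ℕ)

/-- The L-function: the product of the Euler factors. -/
noncomputable def LSeries (t : HeightOneSpectrum (𝓞 K) → ℕ → ℝ) (G : HeightOneSpectrum (𝓞 K) → Prop) (s : ℂ) : ℂ :=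
  ∏' p : Nat.Primes, Complex.exp (logFactor t G s (p : ℕ))

variable {J : Type} [Fintype J] [DecidableEq J]

/-- The member `F(c; x)` of the family. -/
noncomputable def member (F : (MvPolynomial J (𝓞 K))[X]) (c : J → ℤ) : (𝓞 K)[X] :=
  F.map (MvPolynomial.eval (fun j => ((c j : ℤ) : 𝓞 K)))

/-- `log L(H^i(X_c), s)`. -/
noncomputable def logLc {R : Type} [Fintype R] (jac : R → Bool) (i : ℕ) (F : R → (MvPolynomial J (𝓞 K))[X]) (c : J → ℤ) (s : ℂ) : ℂ :=
  logL (localTrace jac i (fun j => member (F j) c)) (fun v => ∀ j, Good (member (F j) c) (F j).natDegree v) s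

/-- `L(H^i(X_c), s)`. -/
noncomputable def LSeriesc {R : Type} [Fintype R] (jac : R → Bool) (i : ℕ) (F : R → (MvPolynomial J (𝓞 K))[X]) (c : J → ℤ) (s : ℂ) : ℂ :=
  LSeries (localTrace jac i (fun j => member (F j) c)) (fun v => ∀ j, Good (member (F j) c) (F j).natDegree v) s

/-- The integer vectors with coordinates of absolute value at most `H`. -/
noncomputable def box (ι : Type) [Fintype ι] [DecidableEq ι] (H : ℕ) : Finset (ι → ℤ) :=
  Fintype.piFinset fun _ => Finset.Icc (-(H : ℤ)) H

/-- The rectangle `1 + i/2 + 1/log H ≤ Re s ≤ 2 + i/2`, `|Im s| ≤ T`. -/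
def rectangle (i H : ℕ) (T : ℝ) : Set ℂ :=
  {s | 1 + (i : ℝ) / 2 + 1 / Real.log H ≤ s.re ∧ s.re ≤ 2 + (i : ℝ) / 2 ∧ |s.im| ≤ T}

/-- **The L-functions of the odd cohomology of products of random curves and Jacobians near the line `Re s = i/2 + 1`.** -/
theorem result {R : Type} [Fintype R] [DecidableEq R] [Nonempty R] (jac : R → Bool) (F : R → (MvPolynomial J (𝓞 K))[X])
    (hF : ∀ j, 1 ≤ (F j).natDegree)
    (hc : ∀ j, ∃ c : J → ℤ, (member (F j) c).natDegree = (F j).natDegree ∧
      ((member (F j) c).map (algebraMap (𝓞 K) K)).Separable)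
    (wt : J → ℕ) (a e : R → ℕ) (he : ∀ j, Odd (e j))
    (hs : ∀ (j : R) (G : ℤ) (c : J → ℤ), (member (F j) (fun l => G ^ wt l * c l)).comp (C ((G : 𝓞 K) ^ a j) * X) =
      C ((G : 𝓞 K) ^ e j) * member (F j) c)
    (i : ℕ) (hi : Odd i) :
    (∀ (c : J → ℤ) (s : ℂ), 1 + (i : ℝ) / 2 < s.re → LSeriesc jac i F c s = Complex.exp (logLc jac i F c s)) ∧
    ∃ C : ℝ, 0 < C ∧ ∀ H : ℕ, 2 ≤ H → ∀ T : ℝ, 0 ≤ T →
      (∀ X ⊆ box J H, ∀ s : (J → ℤ) → ℂ, (∀ c ∈ X, s c ∈ rectangle i H T) →
        ∑ c ∈ X, ‖logLc jac i F c (s c)‖ ^ 2 ≤ C * (1 + T) * (box J H).card) ∧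
      (∀ δ : ℝ, 0 < δ → ∃ X ⊆ box J H, (X.card : ℝ) ≤ δ * (box J H).card ∧
        ∀ c ∈ box J H \ X, ∀ s ∈ rectangle i H T, ‖logLc jac i F c s‖ ≤ Real.sqrt (C * (1 + T) / δ)) := by
  have hwt : Pool.Agent.N534.HC.HasWt (Pool.Agent.N534.HC.Coh.Hd jac i) i :=
    (Pool.Agent.N534.HC.Inst.hasWt_iff _ _).2 (Pool.Agent.N534.HC.Coh.Hd_hom jac i)
  have hAdm : ∀ j, Pool.Agent.N534.HC.Adm (F j) := fun j => ⟨hF j, hc j⟩
  have hodd := Pool.Agent.N534.HC.Inst.oddMon_all (F := F) (wt := wt) (a := a) (e := e) hs he hwt hi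
  obtain ⟨D, hD⟩ := Pool.Agent.N534.HC.powH hwt hAdm hodd
  have hcmp := Pool.Agent.N534.HC.Inst.cmpH i (Pool.Agent.N534.HC.Coh.Hd jac i) F
  have hwedge : ∀ (P : ℕ → ℝ) (n : ℕ), wedge P n = Pool.Agent.N534.HC.Coh.wedge P n := by
    intro P n
    induction n using Nat.strong_induction_on with
    | _ n ih =>
      match n with
      | 0 => rw [wedge, Pool.Agent.N534.HC.Coh.wedge]
      | n + 1 =>
        rw [wedge, Pool.Agent.N534.HC.Coh.wedge]
        congr 1
        refine Finset.sum_congr rfl fun l _ => ?_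
        rw [ih (n - l) (by omega)]
  have hcoh : ∀ (b : Bool) (q : ℝ) (P : ℕ → ℝ), cohom b q P = Pool.Agent.N534.HC.Coh.cohom b q P := by
    intro b q P
    unfold cohom Pool.Agent.N534.HC.Coh.cohom
    have : wedge P = Pool.Agent.N534.HC.Coh.wedge P := funext (hwedge P)
    rw [this]
  have ht : ∀ c : J → ℤ, localTrace jac i (fun j => member (F j) c) =
      Pool.Agent.N534.HC.Inst.tH (Pool.Agent.N534.HC.Coh.Hd jac i) F c := by
    intro c
    funext v k
    unfold localTrace Pool.Agent.N534.HC.Inst.tH Pool.Agent.N534.HC.chv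
    rw [Pool.Agent.N534.HC.Coh.Hd_eval jac i _ (fun j l => ((trace (member (F j) c) v (k * l) : ℤ) : ℝ))
      (fun j l => congrArg (Int.cast : ℤ → ℝ)
        (Pool.Agent.N534.HC.Inst.trace_eq (member (F j) c) v (k * (l + 1))).symm)]
    simp only [hcoh]
    rfl
  have hg : ∀ c : J → ℤ, (fun v => ∀ j, Good (member (F j) c) (F j).natDegree v) =
      Pool.Agent.N534.HC.Inst.gH F c := fun c => rfl
  have hL : ∀ (c : J → ℤ) (s : ℂ), logLc jac i F c s = Pool.Agent.N534.HC.St.logL
      (Pool.Agent.N534.HC.Inst.tH (Pool.Agent.N534.HC.Coh.Hd jac i) F c) (Pool.Agent.N534.HC.Inst.gH F c) s := by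
    intro c s
    unfold logLc
    rw [ht, hg]
    rfl
  refine ⟨fun c s hs' => ?_, ?_⟩
  · have h1 := Pool.Agent.N534.HC.St.LSeries_eq hcmp hD c s hs'
    rw [hL c s, ← h1]
    unfold LSeriesc
    rw [ht, hg]
    rfl
  · have h1 := Pool.Agent.N534.HC.St.avgC hcmp hD
    simp only [← hL] at h1
    exact h1

end

end Pool.Agent.Results.MP_2b9663_nt.OddCohomologyNearTheEdge
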