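import Mathlib
import Pool.Agent.N666.TM.St
import Pool.Agent.N534.HC.Coh

/-!
# Thin sequences of products of curves and Jacobians: the L-functions of the odd cohomology near the edge

The problem asks for the non-vanishing of the i-th L-functions of smooth projective varieties `X` over number fields at the edge `s₀ = i/2 + 1` of
absolute convergence. Here `K` is any number field and `X_c = ∏_{j ∈ R} Y_j`, where `Y_j` is the hyperelliptic (or elliptic) curve
`C_{j,c} : y² = F_j(c; x)` over `K` or its Jacobian (repetitions are allowed); the `F_j` are polynomials in `x` and in integer parameters `c_l`, over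
`𝓞 K`, `F_j(G c; G^{a_j} x) = G^{e_j} F_j(c; x)`, `(G c)_l = G^{wt_l} c_l`, `e_j` odd, with some separable member of full degree (the families of
`MP_2b9663_nt.OddCohomologyNearTheEdge` and `OddCohomologyLimitLaw` of helper534), and `i` is odd.

The parameters are thin: `c(n)_l = ⌊P_l(n)⌋`, where the `P_l` are generalised polynomials (finite sums of real powers with real
coefficients) whose leading exponents are positive, not integers and different from each other, with positive leading coefficients; `n` runs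
through the integers, or through the primes, of `(N, 2N]`. Example: all powers of the Jacobians of the curves
`y² = x⁵ + ⌊n^√2⌋ x³ + ⌊n^√3⌋ x² + ⌊n^(5/2)⌋ x + ⌊n^π⌋`. Only `N` of the members of the box of this size occur.

Theorem, for the integers and for the primes of `(N, 2N]`:
(1) the mean over `n` of the square of the supremum of `|log L(H^i(X_{c(n)}), s)|` over the rectangle `s₀ + 1/log N ≤ Re s ≤ s₀ + 1`, `|Im s| ≤ T` is
at most `C (1 + T)`, `C` free of `N ≥ N₀` and `T`; so `|log L| ≤ (C (1 + T) / δ)^(1/2)` in the rectangle for all `n` outside a proportion `δ`: no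
zero is visible at the distance `1 / log N` from the edge;
(2) for points `s_k` with `Re s_k ≥ s₀` (`s₀` and the edge line allowed) and `σ_k(N) → s_k` with `(Re σ_k(N) - s₀) log N → ∞` the joint distribution of
the `L(H^i(X_{c(n)}), σ_k(N))` converges to that of the values `exp (Z_k)` at `s_k` of the random Euler product over `K` (independent uniform residue
classes modulo the primes): no mass goes to `0` or infinity.
-/

set_option autoImplicit false

open NumberField IsDedekindDomain Polynomial MeasureTheory Filter Topology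

namespace Pool.Agent.Results.MP_2b9663_nt.ThinOddCohomology

section
variable {K : Type} [Field K] [NumberField K]

/-- Number of affine points of `y² = g(x)` with coordinates in the extension of degree `m` of the finite field `k`, i.e. the field of the
elements of the algebraic closure of `k` which are fixed by the `m`-th power of the Frobenius of `k`. -/
noncomputable def affineCount (k : Type) [Field k] (g : k[X]) (m : ℕ) : ℕ :=
  Nat.card {P : AlgebraicClosure k × AlgebraicClosure k //
    P.1 ^ (Nat.card k ^ m) = P.1 ∧ P.2 ^ (Nat.card k ^ m) = P.2 ∧ P.2 ^ 2 = aeval P.1 g}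

/-- Number of points at infinity of the smooth projective curve `y² = g(x)` over the extension of degree `m` of `k`: one if the degree of `g`
is odd, and otherwise the number of square roots of the leading coefficient. -/
noncomputable def infinityCount (k : Type) [Field k] (g : k[X]) (m : ℕ) : ℕ :=
  if Odd g.natDegree then 1 else
    Nat.card {y : AlgebraicClosure k // y ^ (Nat.card k ^ m) = y ∧
      y ^ 2 = algebraMap k (AlgebraicClosure k) g.leadingCoeff}

/-- Trace of the `m`-th power of the Frobenius at `v` on `H¹` of the curve `y² = f(x)`: `q^m + 1` minus the number of its points over the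
field with `q^m` elements, `q = N v`. -/
noncomputable def trace (f : (𝓞 K)[X]) (v : HeightOneSpectrum (𝓞 K)) (m : ℕ) : ℤ :=
  haveI : v.asIdeal.IsMaximal := v.isMaximal
  letI : Field (𝓞 K ⧸ v.asIdeal) := Ideal.Quotient.field v.asIdeal
  ((Ideal.absNorm v.asIdeal : ℕ) : ℤ) ^ m + 1 -
    (affineCount (𝓞 K ⧸ v.asIdeal) (f.map (Ideal.Quotient.mk v.asIdeal)) m +
      infinityCount (𝓞 K ⧸ v.asIdeal) (f.map (Ideal.Quotient.mk v.asIdeal)) m)

/-- Good reduction: `v` does not divide `2` and the reduction of `f` is separable, of degree `d`. -/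
def Good (f : (𝓞 K)[X]) (d : ℕ) (v : HeightOneSpectrum (𝓞 K)) : Prop :=
  (2 : 𝓞 K) ∉ v.asIdeal ∧ (f.map (Ideal.Quotient.mk v.asIdeal)).natDegree = d ∧
    (f.map (Ideal.Quotient.mk v.asIdeal)).Separable

/-- The elementary symmetric functions `e_n` in terms of the power sums `P_l` (Newton's identities `n e_n = ∑ (-1)^{l-1} e_{n-l} P_l`): if
`P_l = tr(A^l)`, then `wedge P n` is the trace of `∧^n A`. -/
noncomputable def wedge (P : ℕ → ℝ) : ℕ → ℝ
  | 0 => 1
  | n + 1 => (∑ l : Fin (n + 1), (-1) ^ (l : ℕ) * wedge P (n - l) * P (l + 1)) / (n + 1)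
decreasing_by omega

/-- The trace polynomial `∑ tr(A | H^n(Y)) t^n` of a curve (`jac = false`) or of its Jacobian (`jac = true`); `q` is the norm, and `P l` the
trace of the `l`-th power of the Frobenius `A` on `H¹`. -/
noncomputable def cohom (jac : Bool) (q : ℝ) (P : ℕ → ℝ) : PowerSeries ℝ :=
  if jac then PowerSeries.mk (wedge P) else 1 + PowerSeries.C (P 1) * PowerSeries.X + PowerSeries.C q * PowerSeries.X ^ 2

/-- The trace of the `k`-th power of the Frobenius at `v` on `H^i(∏_j Y_j)`, where `Y_j` is the curve `y² = f_j(x)` or its Jacobian. -/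
noncomputable def localTrace {R : Type} [Fintype R] (jac : R → Bool) (i : ℕ) (f : R → (𝓞 K)[X]) (v : HeightOneSpectrum (𝓞 K))
    (k : ℕ) : ℝ :=
  PowerSeries.coeff i (∏ j, cohom (jac j) (((Ideal.absNorm v.asIdeal : ℕ) : ℝ) ^ k)
    (fun l => ((trace (f j) v (k * l) : ℤ) : ℝ)))

open Classical in
/-- The sum over the places `v` above `p`, of residue degree `f_v` dividing `k`, of `f_v` times the local trace of the power `k / f_v`. -/
noncomputable def frobTrace (t : HeightOneSpectrum (𝓞 K) → ℕ → ℝ) (p k : ℕ) : ℝ :=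
  ∑ᶠ v : {v : HeightOneSpectrum (𝓞 K) // (p : 𝓞 K) ∈ v.asIdeal},
    if Nat.log p (Ideal.absNorm v.1.asIdeal) ∣ k then
      (Nat.log p (Ideal.absNorm v.1.asIdeal) : ℝ) * t v.1 (k / Nat.log p (Ideal.absNorm v.1.asIdeal))
    else 0

open Classical in
/-- The logarithm `∑ (frobTrace t p k) p^{-ks} / k` of the product of the Euler factors at the places above `p`, for local traces `t`; it is
omitted if one of these places is not good. -/
noncomputable def logFactor (t : HeightOneSpectrum (𝓞 K) → ℕ → ℝ) (G : HeightOneSpectrum (𝓞 K) → Prop)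
    (s : ℂ) (p : ℕ) : ℂ :=
  if ∃ v : HeightOneSpectrum (𝓞 K), (p : 𝓞 K) ∈ v.asIdeal ∧ ¬ G v then 0 else
    ∑' k : ℕ, (frobTrace t p (k + 1) : ℂ) / ((k : ℂ) + 1) * (p : ℂ) ^ (-(((k : ℂ) + 1) * s))

/-- The logarithm of the L-function. -/
noncomputable def logL (t : HeightOneSpectrum (𝓞 K) → ℕ → ℝ) (G : HeightOneSpectrum (𝓞 K) → Prop) (s : ℂ) : ℂ :=
  ∑' p : Nat.Primes, logFactor t G s (p : ℕ)

/-- The L-function: the product of the Euler factors. -/
noncomputable def LSeries (t : HeightOneSpectrum (𝓞 K) → ℕ → ℝ) (G : HeightOneSpectrum (𝓞 K) → Prop) (s : ℂ) : ℂ :=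
  ∏' p : Nat.Primes, Complex.exp (logFactor t G s (p : ℕ))

variable {J : Type} [Fintype J] [DecidableEq J]

/-- The member `F(c; x)` of the family. -/
noncomputable def member (F : (MvPolynomial J (𝓞 K))[X]) (c : J → ℤ) : (𝓞 K)[X] :=
  F.map (MvPolynomial.eval (fun j => ((c j : ℤ) : 𝓞 K)))

/-- `log L(H^i(X_c), s)`. -/
noncomputable def logLc {R : Type} [Fintype R] (jac : R → Bool) (i : ℕ) (F : R → (MvPolynomial J (𝓞 K))[X]) (c : J → ℤ) (s : ℂ) : ℂ :=
  logL (localTrace jac i (fun j => member (F j) c)) (fun v => ∀ j, Good (member (F j) c) (F j).natDegree v) s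

/-- `L(H^i(X_c), s)`. -/
noncomputable def LSeriesc {R : Type} [Fintype R] (jac : R → Bool) (i : ℕ) (F : R → (MvPolynomial J (𝓞 K))[X]) (c : J → ℤ) (s : ℂ) : ℂ :=
  LSeries (localTrace jac i (fun j => member (F j) c)) (fun v => ∀ j, Good (member (F j) c) (F j).natDegree v) s

/-- Vectors of residue classes, one for each prime. -/
abbrev Residues (ι : Type) : Type := ∀ p : Nat.Primes, ι → ZMod (p : ℕ)

/-- The residue classes are independent and uniform. -/
noncomputable def uniform (ι : Type) [Fintype ι] [DecidableEq ι] : MeasureTheory.Measure (Residues ι) :=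
  MeasureTheory.Measure.infinitePi fun p => (PMF.uniformOfFintype (ι → ZMod (p : ℕ))).toMeasure

/-- An integer vector in the residue class modulo `p`. -/
def lift {ι : Type} (x : Residues ι) (p : Nat.Primes) : ι → ℤ := fun i => ((x p i).val : ℤ)

/-- The prime numbers up to `z`. -/
def primesUpTo (z : ℕ) : Finset Nat.Primes := (Finset.range (z + 1)).subtype Nat.Prime

/-- The logarithm of the random Euler product over the primes `p ≤ z`: the Euler factor at `p` is that of the member given by the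
residue classes modulo `p`. -/
noncomputable def randomLog {ι : Type} (t : (ι → ℤ) → HeightOneSpectrum (𝓞 K) → ℕ → ℝ)
    (G : (ι → ℤ) → HeightOneSpectrum (𝓞 K) → Prop) (z : ℕ) (s : ℂ) (x : Residues ι) : ℂ :=
  ∑ p ∈ primesUpTo z, logFactor (t (lift x p)) (G (lift x p)) s (p : ℕ)

/-- The rectangle `1 + i/2 + 1/log N ≤ Re s ≤ 2 + i/2`, `|Im s| ≤ T`. -/
def rectangle (i N : ℕ) (T : ℝ) : Set ℂ :=
  {s | 1 + (i : ℝ) / 2 + 1 / Real.log N ≤ s.re ∧ s.re ≤ 2 + (i : ℝ) / 2 ∧ |s.im| ≤ T}

/-- `c` is the largest exponent of the generalised polynomial `∑ a_x t ^ x`; it is positive and not an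
integer and has a positive coefficient. -/
def Admissible (F : Finset ℝ) (a : ℝ → ℝ) (c : ℝ) : Prop :=
  c ∈ F ∧ (∀ x ∈ F, x ≤ c) ∧ 0 < c ∧ (∀ m : ℕ, c ≠ m) ∧ 0 < a c

/-- The integer parts of the values at `n` of the generalised polynomials `∑ a_x t ^ x`, `x ∈ F k`. -/
noncomputable def floors {J : Type} (F : J → Finset ℝ) (a : J → ℝ → ℝ) (n : ℕ) (k : J) : ℤ :=
  ⌊∑ x ∈ F k, a k x * (n : ℝ) ^ x⌋

/-- The functions `L n`, `n ∈ S`, are bounded on the average in the region `R`. -/
def BoundedOn (L : ℕ → ℂ → ℂ) (S : Finset ℕ) (R : Set ℂ) (C : ℝ) : Prop :=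
  (∀ S' ⊆ S, ∀ u : ℕ → ℂ, (∀ n ∈ S', u n ∈ R) → ∑ n ∈ S', ‖L n (u n)‖ ^ 2 ≤ C * S.card) ∧
  (∀ δ : ℝ, 0 < δ → ∃ X ⊆ S, (X.card : ℝ) ≤ δ * S.card ∧
    ∀ n ∈ S \ X, ∀ u ∈ R, ‖L n u‖ ≤ Real.sqrt (C / δ))

/-- The joint distribution of the values `X N n k` for `n ∈ S N` tends to that of the `exp (Z k)`. -/
def ConvergesTo {ι κ : Type} [Fintype ι] [DecidableEq ι] [Fintype κ] (S : ℕ → Finset ℕ) (X : ℕ → ℕ → κ → ℂ)
    (Z : κ → Residues ι → ℂ) : Prop :=
  (∀ G : (κ → ℂ) → ℝ, Continuous G → (∃ C : ℝ, ∀ y, |G y| ≤ C) →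
    Tendsto (fun N : ℕ => (∑ n ∈ S N, G (X N n)) / (S N).card) atTop
      (𝓝 (∫ x, G (fun k => Complex.exp (Z k x)) ∂(uniform ι)))) ∧
  (∀ E : Set (κ → ℂ), MeasurableSet E → uniform ι {x | (fun k => Complex.exp (Z k x)) ∈ frontier E} = 0 →
    Tendsto (fun N : ℕ => (open Classical in ((S N).filter (fun n => X N n ∈ E)).card : ℝ) / (S N).card) atTop
      (𝓝 ((uniform ι).real {x | (fun k => Complex.exp (Z k x)) ∈ E})))

/-- **The L-functions of the odd cohomology of thin sequences of products of curves and Jacobians over a number field: (1) the supremum near the line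
`Re s = i/2 + 1`, (2) the limit law up to this line.** -/
theorem result {R : Type} [Fintype R] [DecidableEq R] [Nonempty R] [Nonempty J] (jac : R → Bool)
    (F : R → (MvPolynomial J (𝓞 K))[X]) (hF : ∀ j, 1 ≤ (F j).natDegree)
    (hc : ∀ j, ∃ c : J → ℤ, (member (F j) c).natDegree = (F j).natDegree ∧
      ((member (F j) c).map (algebraMap (𝓞 K) K)).Separable)
    (wt : J → ℕ) (a e : R → ℕ) (he : ∀ j, Odd (e j))
    (hs : ∀ (j : R) (G : ℤ) (c : J → ℤ), (member (F j) (fun l => G ^ wt l * c l)).comp (C ((G : 𝓞 K) ^ a j) * X) =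
      C ((G : 𝓞 K) ^ e j) * member (F j) c)
    (i : ℕ) (hi : Odd i) (P : J → Finset ℝ) (α : J → ℝ → ℝ) (γ : J → ℝ) (h : ∀ l, Admissible (P l) (α l) (γ l))
    (hγ : Function.Injective γ) :
    (∀ (c : J → ℤ) (s : ℂ), 1 + (i : ℝ) / 2 < s.re → LSeriesc jac i F c s = Complex.exp (logLc jac i F c s)) ∧
    (∃ C : ℝ, 0 < C ∧ ∃ N₀ : ℕ, ∀ N : ℕ, N₀ ≤ N → ∀ T : ℝ, 0 ≤ T →
      BoundedOn (fun n => logLc jac i F (floors P α n)) (Finset.Ioc N (2 * N)) (rectangle i N T) (C * (1 + T)) ∧
      BoundedOn (fun n => logLc jac i F (floors P α n)) ((Finset.Ioc N (2 * N)).filter Nat.Prime)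
        (rectangle i N T) (C * (1 + T))) ∧
    ∀ {κ : Type} [Fintype κ] (s : κ → ℂ), (∀ k, 1 + (i : ℝ) / 2 ≤ (s k).re) →
      ∃ Z : κ → Residues J → ℂ, (∀ k, Measurable (Z k)) ∧ (∀ k, Integrable (Z k) (uniform J)) ∧
        (∀ k, Tendsto (fun z : ℕ => ∫ x, ‖randomLog (fun c => localTrace jac i (fun j => member (F j) c))
          (fun c v => ∀ j, Good (member (F j) c) (F j).natDegree v) z (s k) x - Z k x‖ ∂(uniform J)) atTop (𝓝 0)) ∧
        ∀ σ : ℕ → κ → ℂ, (∀ k, Tendsto (fun N => σ N k) atTop (𝓝 (s k))) →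
          (∀ k, Tendsto (fun N : ℕ => ((σ N k).re - (1 + (i : ℝ) / 2)) * Real.log N) atTop atTop) →
          ConvergesTo (fun N => Finset.Ioc N (2 * N)) (fun N n k => LSeriesc jac i F (floors P α n) (σ N k)) Z ∧
          ConvergesTo (fun N => (Finset.Ioc N (2 * N)).filter Nat.Prime)
            (fun N n k => LSeriesc jac i F (floors P α n) (σ N k)) Z := by
  have hwt : Pool.Agent.N534.HC.HasWt (Pool.Agent.N534.HC.Coh.Hd jac i) i :=
    (Pool.Agent.N534.HC.Inst.hasWt_iff _ _).2 (Pool.Agent.N534.HC.Coh.Hd_hom jac i)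
  have hAdm : ∀ j, Pool.Agent.N534.HC.Adm (F j) := fun j => ⟨hF j, hc j⟩
  have hodd := Pool.Agent.N534.HC.Inst.oddMon_all (F := F) (wt := wt) (a := a) (e := e) hs he hwt hi
  obtain ⟨D, hD⟩ := Pool.Agent.N534.HC.powH hwt hAdm hodd
  have hcmp := Pool.Agent.N534.HC.Inst.cmpH i (Pool.Agent.N534.HC.Coh.Hd jac i) F
  have hwedge : ∀ (P : ℕ → ℝ) (n : ℕ), wedge P n = Pool.Agent.N534.HC.Coh.wedge P n := by
    intro P n
    induction n using Nat.strong_induction_on with
    | _ n ih =>
      match n with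
      | 0 => rw [wedge, Pool.Agent.N534.HC.Coh.wedge]
      | n + 1 =>
        rw [wedge, Pool.Agent.N534.HC.Coh.wedge]
        congr 1
        refine Finset.sum_congr rfl fun l _ => ?_
        rw [ih (n - l) (by omega)]
  have hcoh : ∀ (b : Bool) (q : ℝ) (P : ℕ → ℝ), cohom b q P = Pool.Agent.N534.HC.Coh.cohom b q P := by
    intro b q P
    unfold cohom Pool.Agent.N534.HC.Coh.cohom
    have : wedge P = Pool.Agent.N534.HC.Coh.wedge P := funext (hwedge P)
    rw [this]
  have ht : (fun c : J → ℤ => localTrace jac i (fun j => member (F j) c)) =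
      Pool.Agent.N534.HC.Inst.tH (Pool.Agent.N534.HC.Coh.Hd jac i) F := by
    funext c v k
    unfold localTrace Pool.Agent.N534.HC.Inst.tH Pool.Agent.N534.HC.chv
    rw [Pool.Agent.N534.HC.Coh.Hd_eval jac i _ (fun j l => ((trace (member (F j) c) v (k * l) : ℤ) : ℝ))
      (fun j l => congrArg (Int.cast : ℤ → ℝ)
        (Pool.Agent.N534.HC.Inst.trace_eq (member (F j) c) v (k * (l + 1))).symm)]
    simp only [hcoh]
    rfl
  have hg : (fun (c : J → ℤ) v => ∀ j, Good (member (F j) c) (F j).natDegree v) =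
      Pool.Agent.N534.HC.Inst.gH F := rfl
  have hQ : LSeriesc jac i F = fun (c : J → ℤ) (s : ℂ) => Pool.Agent.N534.HC.St.LSeries
      (Pool.Agent.N534.HC.Inst.tH (Pool.Agent.N534.HC.Coh.Hd jac i) F c) (Pool.Agent.N534.HC.Inst.gH F c) s := by
    funext c s
    unfold LSeriesc
    have h1 : localTrace jac i (fun j => member (F j) c) =
        Pool.Agent.N534.HC.Inst.tH (Pool.Agent.N534.HC.Coh.Hd jac i) F c := congrFun ht c
    rw [h1]
    rfl
  have hL : logLc jac i F = fun (c : J → ℤ) (s : ℂ) => Pool.Agent.N534.HC.St.logL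
      (Pool.Agent.N534.HC.Inst.tH (Pool.Agent.N534.HC.Coh.Hd jac i) F c) (Pool.Agent.N534.HC.Inst.gH F c) s := by
    funext c s
    unfold logLc
    have h1 : localTrace jac i (fun j => member (F j) c) =
        Pool.Agent.N534.HC.Inst.tH (Pool.Agent.N534.HC.Coh.Hd jac i) F c := congrFun ht c
    rw [h1]
    rfl
  have main := Pool.Agent.N666.TM.St.thin_all hcmp hD h hγ
  rw [hQ, hL, ht, hg]
  exact main

end

end Pool.Agent.Results.MP_2b9663_nt.ThinOddCohomology
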