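import Mathlib
import Pool.Agent.N666.TM.EC

/-!
# Thin sequences of elliptic curves over a number field near the whole line `Re s = 3/2`

`K` is an arbitrary number field with an integral basis `ω_i`, `i ∈ I`, and `A`, `B` are polynomials in
finitely many variables `u_j`, `j ∈ J`, with coefficients in `𝓞 K`.  For the vectors `c = (t, u)` of
integers consider the curves

`E_c : y² = x³ + A(u) x + B(u) + t`, `t = ∑ t_i ω_i`.

Let `P_k`, `k ∈ I ⊔ J`, be generalised polynomials (finite sums of real powers with real coefficients) with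
distinct leading exponents which are positive and not integers, and positive leading coefficients.
The theorem is about the sequence of the curves `E_n := E_{c(n)}`, `c(n)_k = ⌊P_k(n)⌋`, when `n` runs
through the integers of `(N, 2N]`, or through the primes only.  Examples over `ℚ`:
`y² = x³ + ⌊n^√2⌋ x + ⌊n^(5/2)⌋`, `y² = x³ - x + ⌊n^π⌋`.

The mean over the curves of the square of the supremum of `|log L(E_n/K, s)|` over the rectangle
`3/2 + 1/log N ≤ Re s ≤ 5/2`, `|Im s| ≤ T` is at most `C (1 + T)`, with `C` free of `N` and `T`; so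
outside a proportion `δ` of the `n` the function `L(E_n/K, s)` is bounded from above and from below by
`exp (± (C (1 + T) / δ) ^ (1/2))` in the whole rectangle; for the abelian varieties `Res_{K/ℚ} E_n` over
`ℚ` and `i = 1` this is a quantitative non-vanishing up to the distance `1/log N` of the edge.  The
sequence contains only `N` of the
`≍ N ^ (∑ c_k)` curves with coefficients of this size (`c_k` may be as large as we please), so that the
theorem on boxes of curves says nothing about it.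

Proof. Exponential sums over integers and primes (`Pool.Agent.Y961.JR` of the starting library) give the
joint distribution of the vectors `c(n)` modulo `q ≤ N^δ` with a power saving.  Hence the second moments
of the Dirichlet polynomials of the traces of Frobenius over the primes up to a small power of `N` are
bounded on the thin sequence as for a box, and the local analysis of helper534
(`MP_bf61d2_nt.RandomCurvesEdgeLine`: Hasse bounds at all primes, degrees, Cauchy's formula) applies.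
-/

set_option autoImplicit false

open NumberField IsDedekindDomain

namespace Pool.Agent.Results.MP_2b9663_nt.ThinSequences

/-- `c` is the largest exponent of the generalised polynomial `∑ a_x t ^ x`; it is positive and not an
integer and has a positive coefficient. -/
def Admissible (F : Finset ℝ) (a : ℝ → ℝ) (c : ℝ) : Prop :=
  c ∈ F ∧ (∀ x ∈ F, x ≤ c) ∧ 0 < c ∧ (∀ m : ℕ, c ≠ m) ∧ 0 < a c

section
variable {K : Type} [Field K] [NumberField K]

/-- `M v` is, for every `v`, an integral model of `E` with discriminant minimal at `v`. -/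
def MinimalModels (E : WeierstrassCurve K) (M : HeightOneSpectrum (𝓞 K) → WeierstrassCurve (𝓞 K)) : Prop :=
  ∀ v : HeightOneSpectrum (𝓞 K),
    (∃ C : WeierstrassCurve.VariableChange K, C • E = (M v).map (algebraMap (𝓞 K) K)) ∧
    ∀ W : WeierstrassCurve (𝓞 K),
      (∃ C : WeierstrassCurve.VariableChange K, C • E = W.map (algebraMap (𝓞 K) K)) →
        ∀ n : ℕ, (M v).Δ ∈ v.asIdeal ^ n → W.Δ ∈ v.asIdeal ^ n

open Classical in
/-- The polynomial `1 - a_v T + q_v T²`, or `1 - a_v T` at a prime of bad reduction, at `T = q_v^{-s}`; here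
`a_v` is `q_v` minus the number of the affine points of the reduction of the model `M v`. -/
noncomputable def factor (M : HeightOneSpectrum (𝓞 K) → WeierstrassCurve (𝓞 K)) (s : ℂ)
    (v : HeightOneSpectrum (𝓞 K)) : ℂ :=
  1 - ((((Ideal.absNorm v.asIdeal : ℕ) : ℤ) -
          ((Nat.card {p : (𝓞 K ⧸ v.asIdeal) × (𝓞 K ⧸ v.asIdeal) //
            p.2 ^ 2 + Ideal.Quotient.mk v.asIdeal (M v).a₁ * p.1 * p.2
              + Ideal.Quotient.mk v.asIdeal (M v).a₃ * p.2
            = p.1 ^ 3 + Ideal.Quotient.mk v.asIdeal (M v).a₂ * p.1 ^ 2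
              + Ideal.Quotient.mk v.asIdeal (M v).a₄ * p.1
              + Ideal.Quotient.mk v.asIdeal (M v).a₆} : ℕ) : ℤ) : ℤ) : ℂ)
          * ((Ideal.absNorm v.asIdeal : ℕ) : ℂ) ^ (-s)
      + (if (M v).Δ ∈ v.asIdeal then (0 : ℂ) else 1)
          * ((Ideal.absNorm v.asIdeal : ℕ) : ℂ) ^ (1 - 2 * s)

/-- `L(E/K, s)`. -/
noncomputable def LSeries (M : HeightOneSpectrum (𝓞 K) → WeierstrassCurve (𝓞 K)) (s : ℂ) : ℂ :=
  ∏' v : HeightOneSpectrum (𝓞 K), (factor M s v)⁻¹

/-- The logarithm of `L(E/K, s)` given by the Euler product. -/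
noncomputable def logL (M : HeightOneSpectrum (𝓞 K) → WeierstrassCurve (𝓞 K)) (s : ℂ) : ℂ :=
  ∑' v : HeightOneSpectrum (𝓞 K), -Complex.log (factor M s v)

variable {I J : Type} [Fintype I] [Fintype J] [DecidableEq I] [DecidableEq J]

/-- The curve `y² = x³ + A(u) x + B(u) + ∑ t_i ω_i`, for `c = (t, u)`. -/
noncomputable def curve (ω : Module.Basis I ℤ (𝓞 K)) (A B : MvPolynomial J (𝓞 K)) (c : I ⊕ J → ℤ) :
    WeierstrassCurve K where
  a₁ := 0
  a₂ := 0
  a₃ := 0
  a₄ := (MvPolynomial.eval (fun j => ((c (Sum.inr j) : ℤ) : 𝓞 K)) A : 𝓞 K)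
  a₆ := (MvPolynomial.eval (fun j => ((c (Sum.inr j) : ℤ) : 𝓞 K)) B +
    ∑ i, ((c (Sum.inl i) : ℤ) : 𝓞 K) * ω i : 𝓞 K)

/-- The integer parts of the values at `n` of the generalised polynomials `∑ a_x t ^ x`, `x ∈ F k`. -/
noncomputable def floors (F : I ⊕ J → Finset ℝ) (a : I ⊕ J → ℝ → ℝ) (n : ℕ) (k : I ⊕ J) : ℤ :=
  ⌊∑ x ∈ F k, a k x * (n : ℝ) ^ x⌋

/-- The rectangle `3/2 + 1/log N ≤ Re s ≤ 5/2`, `|Im s| ≤ T`. -/
def rectangle (N : ℕ) (T : ℝ) : Set ℂ :=
  {s | 3 / 2 + 1 / Real.log N ≤ s.re ∧ s.re ≤ 5 / 2 ∧ |s.im| ≤ T}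

/-- The curves with `n ∈ S` have, on the average, bounded logarithms in the rectangle. -/
def BoundedOn (E : ℕ → WeierstrassCurve K) (S : Finset ℕ) (N : ℕ) (T C : ℝ) : Prop :=
  (∀ S' ⊆ S, ∀ (M : ℕ → HeightOneSpectrum (𝓞 K) → WeierstrassCurve (𝓞 K)) (s : ℕ → ℂ),
    (∀ n ∈ S', MinimalModels (E n) (M n)) → (∀ n ∈ S', s n ∈ rectangle N T) →
      ∑ n ∈ S', ‖logL (M n) (s n)‖ ^ 2 ≤ C * (1 + T) * S.card) ∧
  (∀ δ : ℝ, 0 < δ → ∃ X ⊆ S, (X.card : ℝ) ≤ δ * S.card ∧
    ∀ n ∈ S \ X, ∀ M : HeightOneSpectrum (𝓞 K) → WeierstrassCurve (𝓞 K), MinimalModels (E n) M →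
      ∀ s ∈ rectangle N T, ‖logL M s‖ ≤ Real.sqrt (C * (1 + T) / δ))

lemma boundedOn_mono {E : ℕ → WeierstrassCurve K} {S : Finset ℕ} {N : ℕ} {T C C' : ℝ} (hT : 0 ≤ T)
    (hC : C ≤ C') (h : BoundedOn E S N T C) : BoundedOn E S N T C' := by
  refine ⟨fun S' hS' M s hM hs => (h.1 S' hS' M s hM hs).trans ?_, fun δ hδ => ?_⟩
  · gcongr
  · obtain ⟨X, hX, hX1, hX2⟩ := h.2 δ hδ
    refine ⟨X, hX, hX1, fun n hn M hM s hs => (hX2 n hn M hM s hs).trans ?_⟩
    apply Real.sqrt_le_sqrt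
    gcongr

lemma aux (ω : Module.Basis I ℤ (𝓞 K)) (A B : MvPolynomial J (𝓞 K)) {S : ℕ → Finset ℕ}
    {x : ℕ → I ⊕ J → ℤ} {κ : ℝ} (hκ : 0 < κ)
    (hw : ∃ N₀ : ℕ, ∀ N : ℕ, N₀ ≤ N → ∀ H : ℕ, (H : ℝ) ≤ (N : ℝ) ^ κ →
      Pool.Agent.N666.TM.Well (S N) x H) :
    ∃ C : ℝ, 0 < C ∧ ∃ N₀ : ℕ, ∀ N : ℕ, N₀ ≤ N → ∀ T : ℝ, 0 ≤ T →
      BoundedOn (fun n => curve ω A B (x n)) (S N) N T C := by
  have hlog : ∀ (M : HeightOneSpectrum (𝓞 K) → WeierstrassCurve (𝓞 K)) (s : ℂ),
      logL M s = ∑' v : HeightOneSpectrum (𝓞 K), Pool.Agent.N534.EC.ll M (s - 3 / 2) v := by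
    intro M s
    have e : (3 / 2 + (s - 3 / 2) : ℂ) = s := by ring
    unfold Pool.Agent.N534.EC.ll
    rw [e]
    rfl
  obtain ⟨C, hC, N₀, h⟩ := Pool.Agent.N666.TM.majorant_ec ω A B hκ hw
  refine ⟨C, hC, N₀, fun N hN T hT => ?_⟩
  obtain ⟨M', hM0, hM1, hM2⟩ := h N hN T hT
  have hone : ∀ (c : I ⊕ J → ℤ) (M : HeightOneSpectrum (𝓞 K) → WeierstrassCurve (𝓞 K)),
      MinimalModels (curve ω A B c) M → ∀ s ∈ rectangle N T, ‖logL M s‖ ^ 2 ≤ M' c := by
    intro c M hM s hs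
    obtain ⟨h1, h2, h3⟩ := hs
    rw [hlog]
    have e1 : (s - 3 / 2 : ℂ).re = s.re - 3 / 2 := by simp
    have e2 : (s - 3 / 2 : ℂ).im = s.im := by simp
    refine hM2 c M hM (s - 3 / 2) ?_ ?_ ?_
    · rw [e1]; linarith
    · rw [e1]; linarith
    · rw [e2]; exact h3
  refine ⟨fun S' hS' M s hM hs => ?_, fun δ hδ => ?_⟩
  · calc _ ≤ ∑ n ∈ S', M' (x n) :=
          Finset.sum_le_sum fun n hn => hone (x n) (M n) (hM n hn) (s n) (hs n hn)
      _ ≤ ∑ n ∈ S N, M' (x n) := Finset.sum_le_sum_of_subset_of_nonneg hS' fun n _ _ => hM0 _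
      _ ≤ _ := hM1
  · have hCT : 0 < C * (1 + T) := by positivity
    refine ⟨(S N).filter (fun n => C * (1 + T) / δ < M' (x n)), Finset.filter_subset _ _, ?_, ?_⟩
    · have h1 : (((S N).filter (fun n => C * (1 + T) / δ < M' (x n))).card : ℝ) *
          (C * (1 + T) / δ) ≤ ∑ n ∈ (S N).filter (fun n => C * (1 + T) / δ < M' (x n)), M' (x n) := by
        rw [← nsmul_eq_mul]
        exact Finset.card_nsmul_le_sum _ _ _ fun n hn => (Finset.mem_filter.mp hn).2.le
      have h2 : ∑ n ∈ (S N).filter (fun n => C * (1 + T) / δ < M' (x n)), M' (x n) ≤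
          ∑ n ∈ S N, M' (x n) :=
        Finset.sum_le_sum_of_subset_of_nonneg (Finset.filter_subset _ _) fun n _ _ => hM0 _
      have h3 := (h1.trans h2).trans hM1
      rw [mul_div_assoc', div_le_iff₀ hδ] at h3
      have h4 : (C * (1 + T)) * (((S N).filter (fun n => C * (1 + T) / δ < M' (x n))).card : ℝ) ≤
          (C * (1 + T)) * (δ * (S N).card) := by linarith
      exact le_of_mul_le_mul_left h4 hCT
    · intro n hn M hM s hs
      rw [Finset.mem_sdiff, Finset.mem_filter, not_and, not_lt] at hn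
      exact Real.le_sqrt_of_sq_le ((hone _ M hM s hs).trans (hn.2 hn.1))

/-- **Thin sequences of elliptic curves over a number field near the line `Re s = 3/2`.** -/
theorem result (ω : Module.Basis I ℤ (𝓞 K)) (A B : MvPolynomial J (𝓞 K)) (F : I ⊕ J → Finset ℝ)
    (a : I ⊕ J → ℝ → ℝ) (c : I ⊕ J → ℝ) (h : ∀ k, Admissible (F k) (a k) (c k))
    (hc : Function.Injective c) :
    (∀ (M : HeightOneSpectrum (𝓞 K) → WeierstrassCurve (𝓞 K)) (s : ℂ), 3 / 2 < s.re →
      LSeries M s = Complex.exp (logL M s)) ∧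
    ∃ C : ℝ, 0 < C ∧ ∃ N₀ : ℕ, ∀ N : ℕ, N₀ ≤ N → ∀ T : ℝ, 0 ≤ T →
      BoundedOn (fun n => curve ω A B (floors F a n)) (Finset.Ioc N (2 * N)) N T C ∧
      BoundedOn (fun n => curve ω A B (floors F a n)) ((Finset.Ioc N (2 * N)).filter Nat.Prime)
        N T C := by
  have hI : Nonempty I := by
    by_contra hI
    rw [not_nonempty_iff] at hI
    have h1 : (1 : 𝓞 K) = 0 := by
      have := ω.sum_repr (1 : 𝓞 K)
      rw [← this]
      simp
    exact one_ne_zero h1
  refine ⟨?_, ?_⟩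
  · intro M s hs
    have h1 := Pool.Agent.N534.EC.exp_ll M (u := s - 3 / 2) (by
      have : (s - 3 / 2 : ℂ).re = s.re - 3 / 2 := by simp
      rw [this]
      linarith)
    have e : (3 / 2 + (s - 3 / 2) : ℂ) = s := by ring
    have hlog : logL M s = ∑' v : HeightOneSpectrum (𝓞 K), Pool.Agent.N534.EC.ll M (s - 3 / 2) v := by
      unfold Pool.Agent.N534.EC.ll
      rw [e]
      rfl
    rw [e, ← hlog] at h1
    exact h1
  · obtain ⟨⟨κ₁, hκ₁, h₁⟩, ⟨κ₂, hκ₂, h₂⟩⟩ := Pool.Agent.N666.TM.fl_well h hc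
    obtain ⟨C₁, hC₁, N₁, g₁⟩ := aux ω A B hκ₁ h₁
    obtain ⟨C₂, hC₂, N₂, g₂⟩ := aux ω A B hκ₂ h₂
    refine ⟨max C₁ C₂, lt_max_of_lt_left hC₁, max N₁ N₂, fun N hN T hT => ⟨?_, ?_⟩⟩
    · exact boundedOn_mono hT (le_max_left _ _) (g₁ N ((le_max_left _ _).trans hN) T hT)
    · exact boundedOn_mono hT (le_max_right _ _) (g₂ N ((le_max_right _ _).trans hN) T hT)

end

end Pool.Agent.Results.MP_2b9663_nt.ThinSequences
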